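import Pool.Agent.Work.MP_8da9ea_nt.EC.Stmts2
import Pool.Agent.Work.MP_8da9ea_nt.CD.End

/-!
# Reduction to a countable field: transcendence degrees
-/

set_option autoImplicit false

namespace Pool.Agent.Work.MP_8da9ea_nt.CR

open Pool.Agent.Work.MP_8da9ea_nt.EB Pool.Agent.Work.MP_327059_nt.GL Pool.Agent.Work.MP_8da9ea_nt.S
  Pool.Agent.Work.MP_8da9ea_nt.TG Pool.Agent.ED

/-- a field algebraic over a field with `M` generators -/
theorem not_hasTrdeg {M : ℕ} (θ : Fin M → ℂ) (L : IntermediateField ℚ ℂ)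
    (hL : ∀ x ∈ L, IsAlgebraic (IntermediateField.adjoin ℚ (Set.range θ)) x) :
    ¬ HasTrdeg L (M + 1) := by
  classical
  rintro ⟨x, hx, hxi⟩
  obtain ⟨δ, hδ, hδi⟩ := lin_ker (⊤ : Submodule ℂ (Derivation ℚ ℂ ℂ)) (evDer x) (evDer θ) 1 (by
    have h1 : (⊤ : Submodule ℂ (Derivation ℚ ℂ ℂ)).map (evDer (K := ℚ) (M := ℂ) x) = ⊤ := by
      rw [eq_top_iff]
      intro u _
      obtain ⟨X, hX⟩ := exists_derivation hxi u
      exact ⟨X, trivial, funext hX⟩
    rw [h1, finrank_top, Module.finrank_fintype_fun_eq_card, Module.finrank_fintype_fun_eq_card,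
      Fintype.card_fin, Fintype.card_fin]
    omega)
  apply hδi.ne_zero 0
  have h0 : ∀ i, δ 0 (θ i) = 0 := fun i => congrFun (hδ 0).2 i
  funext j
  refine der_zero_alg (IntermediateField.adjoin ℚ (Set.range θ)) (δ 0) ?_ (x j) (hL _ (hx j))
  refine der_zero_adjoin _ (δ 0) ?_
  rintro _ ⟨i, rfl⟩
  exact h0 i

theorem hasTrdeg_zero (L : IntermediateField ℚ ℂ) : HasTrdeg L 0 :=
  ⟨fun i => i.elim0, fun i => i.elim0, algebraicIndependent_empty_type_iff.2
    (algebraMap ℚ ℂ).injective⟩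

/-- dropping two generators -/
theorem drop_two (L B : IntermediateField ℚ ℂ) (x y : ℂ)
    (hB : ∀ b ∈ B, IsAlgebraic (IntermediateField.adjoin ℚ ((L : Set ℂ) ∪ {x, y})) b) {d : ℕ}
    (h : HasTrdeg B (d + 2)) : HasTrdeg L d := by
  classical
  by_contra hL
  obtain ⟨N, rfl⟩ : ∃ N, d = N + 1 := by
    rcases Nat.eq_zero_or_pos d with rfl | hd
    · exact absurd (hasTrdeg_zero L) hL
    · exact ⟨d - 1, by omega⟩
  obtain ⟨θ, hθ⟩ := exists_theta L N hL
  set θ' : Fin (N + 2) → ℂ := Fin.cons x (Fin.cons y θ) with hθ'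
  have hle : IntermediateField.adjoin ℚ (Set.range θ) ≤
      IntermediateField.adjoin ℚ (Set.range θ') := by
    apply IntermediateField.adjoin.mono
    rintro _ ⟨i, rfl⟩
    exact ⟨i.succ.succ, by simp [hθ']⟩
  refine not_hasTrdeg θ' B (fun b hb => ?_) h
  have h1 : IntermediateField.adjoin ℚ ((L : Set ℂ) ∪ {x, y}) ≤
      CD.acl (IntermediateField.adjoin ℚ (Set.range θ')) := by
    rw [IntermediateField.adjoin_le_iff]
    rintro u (hu | hu)
    · rw [SetLike.mem_coe] at hu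
      have h2 : u ∈ CD.acl (IntermediateField.adjoin ℚ (Set.range θ)) := CD.mem_acl.2 (hθ u hu)
      exact CD.mem_acl.2 ((hθ u hu).tower_top_of_subalgebra_le hle)
    · apply CD.le_acl
      rcases hu with rfl | hu
      · exact IntermediateField.subset_adjoin _ _ ⟨0, rfl⟩
      · rw [Set.mem_singleton_iff] at hu
        rw [hu]
        exact IntermediateField.subset_adjoin _ _ ⟨1, rfl⟩
  have h3 : IsAlgebraic (CD.acl (IntermediateField.adjoin ℚ (Set.range θ'))) b :=
    (hB b hb).tower_top_of_subalgebra_le h1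
  exact CD.mem_acl.1 (CD.AC_acl _ b h3)

end Pool.Agent.Work.MP_8da9ea_nt.CR
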