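import Pool.Agent.Work.MP_8da9ea_nt.CR.Main
import Pool.Agent.Work.MP_8da9ea_nt.GC.Fin

/-!
# Reduction to a countable field: the final theorem
-/

set_option autoImplicit false

namespace Pool.Agent.Work.MP_8da9ea_nt.CR

open Pool.Agent.Work.MP_8da9ea_nt.EB Pool.Agent.Work.MP_327059_nt.GL Pool.Agent.Work.MP_8da9ea_nt.S
  Pool.Agent.Work.MP_8da9ea_nt.EC Submodule

/-- **The final theorem, without the first clause.** -/
theorem main0 :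
    ∃ cl : Set ℂ → IntermediateField ℚ ℂ,
      (∀ S : Set ℂ, S ⊆ cl S) ∧ (∀ S T : Set ℂ, S ⊆ cl T → cl S ≤ cl T) ∧
      (∀ S x, x ∈ cl S → ∃ T : Finset ℂ, (T : Set ℂ) ⊆ S ∧ x ∈ cl (T : Set ℂ)) ∧
      (∀ S, S.Countable → (cl S : Set ℂ).Countable) ∧
      (∀ S x, IsAlgebraic (cl S) x → x ∈ cl S) ∧
      (∀ S, ∀ ω₁ ∈ cl S, ∀ ω₂ ∈ cl S, ∀ (s n : ℕ) (t : Fin s → ℂ) (p : Fin n → ℂ),
        (∀ l, t l ∈ cl S) → (∀ i, p i ∈ cl S) → bigField ω₁ ω₂ t p ≤ cl S) ∧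
      (∀ S ω₁ ω₂, (ω₂ / ω₁).im ≠ 0 → (jInv ω₁ ω₂ ∈ cl S ↔ ω₂ / ω₁ ∈ cl S)) ∧
      ∀ S : Set ℂ, S.Countable → ∀ ω₁ ω₂ : ℂ, (ω₂ / ω₁).im ≠ 0 →
        ∀ (s n : ℕ) (t : Fin s → ℂ) (p : Fin n → ℂ),
        (jInv ω₁ ω₂ ∉ cl S → ¬ IsCM ω₁ ω₂ ∧ ∃ (a : ℕ) (t' : Fin a → ℂ),
          (∀ l, t' l ∈ cl S ∧ t' l ∈ span ℚ (Set.range t)) ∧
          tDim t ≤ tDim t' + modDim (cl S) t ∧
          (Q1 1 Complex.I t' (![] : Fin 0 → ℂ) → Q1 ω₁ ω₂ t p) ∧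
          ∀ (r : ℕ) (z : Fin r → ℂ), (∀ i, IsAlgebraic (bigField ω₁ ω₂ t p) (z i)) →
          (∀ i, z i ∉ cl (S ∪ z '' {j | j < i})) →
          (∀ L : IntermediateField ℚ ℂ, L ≤ cl S →
            (∀ x ∈ L, IsAlgebraic (bigField ω₁ ω₂ t p) x) → ∀ d, HasTrdeg L d →
            HasTrdeg (bigField ω₁ ω₂ t p)
              (d + (modDim (cl S) t + 3 + kDim2 ω₁ ω₂ p) + max 1 r)) ∧
          (∀ N, HasTrdeg (expField t') N → tDim t' + 1 ≤ N + max 1 r → Q1 ω₁ ω₂ t p) ∧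
          ((∀ x ∈ span ℚ (Set.range t), x ∈ cl S → IsAlgebraic ℚ x) ∨
            tDim t ≤ modDim (cl S) t + max 1 r → Q1 ω₁ ω₂ t p)) ∧
        (jInv ω₁ ω₂ ∈ cl S → ∃ (a b : ℕ) (t' : Fin a → ℂ) (p' : Fin b → ℂ),
          (∀ l, t' l ∈ cl S ∧ t' l ∈ span ℚ (Set.range t)) ∧
          (∀ i, p' i ∈ cl S ∧ (∀ x y : ℤ, p' i ≠ x + y * (ω₂ / ω₁)) ∧
            ∃ g : Fin n → ℂ, (∀ j, InK ω₁ ω₂ (g j)) ∧ p' i * ω₁ = ∑ j, g j * p j) ∧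
          tDim t ≤ tDim t' + modDim (cl S) t ∧
          kDim2 ω₁ ω₂ p ≤ kDim2 1 (ω₂ / ω₁) p' + modDim2 (cl S) ω₁ ω₂ p ∧
          (∀ x ∈ bigField 1 (ω₂ / ω₁) t' p', x ∈ cl S ∧ IsAlgebraic (bigField ω₁ ω₂ t p) x) ∧
          (Q1 1 (ω₂ / ω₁) t' p' → Q1 ω₁ ω₂ t p) ∧
          ∀ (r : ℕ) (z : Fin r → ℂ), (∀ i, IsAlgebraic (bigField ω₁ ω₂ t p) (z i)) →
          (∀ i, z i ∉ cl (S ∪ z '' {j | j < i})) →
          ∀ R, R = max r (min 1 (modDim (cl S) t + modDim2 (cl S) ω₁ ω₂ p)) →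
          (∀ L : IntermediateField ℚ ℂ, L ≤ cl S →
            (∀ x ∈ L, IsAlgebraic (bigField ω₁ ω₂ t p) x) → ∀ d, HasTrdeg L d →
            HasTrdeg (bigField ω₁ ω₂ t p)
              (d + (modDim (cl S) t + modDim2 (cl S) ω₁ ω₂ p) + R)) ∧
          (∀ N, HasTrdeg (bigField 1 (ω₂ / ω₁) t' p') N →
            tDim t' + (open Classical in if IsCM ω₁ ω₂ then 2 else 4) +
              kDim2 1 (ω₂ / ω₁) p' ≤ N + R → Q1 ω₁ ω₂ t p) ∧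
          (∀ m, HasTrdeg (bigField 1 (ω₂ / ω₁) (![] : Fin 0 → ℂ) (![] : Fin 0 → ℂ)) m ∨ m = 2 →
            tDim t + (open Classical in if IsCM ω₁ ω₂ then 2 else 4) + kDim2 ω₁ ω₂ p ≤
              m + (modDim (cl S) t + modDim2 (cl S) ω₁ ω₂ p) + R → Q1 ω₁ ω₂ t p) ∧
          ((∀ x ∈ span ℚ (Set.range t), x ∈ cl S → IsAlgebraic ℚ x) →
            (open Classical in if IsCM ω₁ ω₂ then 2 else 4) + kDim2 ω₁ ω₂ p ≤
              modDim2 (cl S) ω₁ ω₂ p + R → Q1 ω₁ ω₂ t p)) := by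
  classical
  refine ⟨CD.cl, CD.subset_cl, fun S T h => CD.cl_min (CD.closed_cl T) h, CD.prf_ClF, CD.prf_ClC,
    fun S x => (CD.closed_cl S).alg x, fun S ω₁ h1 ω₂ h2 s n t p ht hp =>
      CD.closed_big (CD.closed_cl S) h1 h2 ht hp,
    fun S ω₁ ω₂ him => CD.closed_jiff (CD.closed_cl S) him, ?_⟩
  intro S hS ω₁ ω₂ him s n t p
  refine ⟨fun hj => ?_, fun hj => ?_⟩
  · -- `j` outside
    have hCM : ¬ IsCM ω₁ ω₂ := CD.closed_not_CM (CD.closed_cl S) him hj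
    have hk : kDim2 ω₁ ω₂ p = 2 * pDim ω₁ ω₂ p := by
      unfold kDim2 pDim
      rw [if_neg hCM]
    obtain ⟨m, t', ht', hdim, hexp⟩ :=
      CD.exists_part (t := t) (p := p) (CD.closed_cl S) him
    have main : ∀ (r : ℕ) (z : Fin r → ℂ), (∀ i, IsAlgebraic (bigField ω₁ ω₂ t p) (z i)) →
          (∀ i, z i ∉ CD.cl (S ∪ z '' {j | j < i})) →
          ∀ L : IntermediateField ℚ ℂ, L ≤ CD.cl S →
            (∀ x ∈ L, IsAlgebraic (bigField ω₁ ω₂ t p) x) → ∀ d, HasTrdeg L d →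
            HasTrdeg (bigField ω₁ ω₂ t p)
              (d + (modDim (CD.cl S) t + 3 + kDim2 ω₁ ω₂ p) + max 1 r) := by
      intro r z hzL hz L hLS hL d hLd
      have h1 := CD.all_mov (t := t) (p := p) CD.prf_Lin CD.prf_Lin2 CD.prf_Lin3 CD.prf_Add
        CD.end_Mul him hS hj z (fun i => CD.mem_acl.2 (hzL i)) hz
      have h2 : HasTrdeg (CD.acl (bigField ω₁ ω₂ t p) ⊓ CD.cl S) d :=
        hLd.mono (le_inf (fun x hx => CD.mem_acl.2 (hL x hx)) hLS) le_rfl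
      have h3 : CD.RelTr (CD.acl (CD.acl (bigField ω₁ ω₂ t p))) (CD.cl S) _ :=
        h1.mono (CD.le_acl _) le_rfl le_rfl
      have h4 := CD.hasTrdeg_acl (h3.hasTrdeg h2)
      exact h4.mono le_rfl (by rw [hk]; omega)
    have hsch : ∀ (r : ℕ) (z : Fin r → ℂ), (∀ i, IsAlgebraic (bigField ω₁ ω₂ t p) (z i)) →
          (∀ i, z i ∉ CD.cl (S ∪ z '' {j | j < i})) →
          ∀ N, HasTrdeg (expField t') N → tDim t' + 1 ≤ N + max 1 r → Q1 ω₁ ω₂ t p := by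
      intro r z hzL hz N hN hle
      have h1 := main r z hzL hz _ (hexp.trans inf_le_right)
        (fun x hx => isAlgebraic_algebraMap (⟨x, (hexp hx).1⟩ : bigField ω₁ ω₂ t p)) N hN
      unfold Q1
      rw [if_neg hCM]
      exact h1.mono le_rfl (by omega)
    refine ⟨hCM, m, t', ht', hdim, fun hQ => ?_, fun r z hzL hz =>
      ⟨main r z hzL hz, hsch r z hzL hz, ?_⟩⟩
    · exact hsch 0 (fun i => i.elim0) (fun i => i.elim0) (fun i => i.elim0) _ (sch_of_Q1 t' hQ)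
        (by omega)
    · rintro (h | h)
      · exact hsch r z hzL hz _ (tbound2 t' (Or.inl fun l => h _ (ht' l).2 (ht' l).1)) (by omega)
      · have hpi : HasTrdeg (bigField ω₁ ω₂ t p ⊓ CD.cl S) 1 :=
          ⟨fun _ => kap, fun _ => ⟨big_pi' him _ _, (CD.closed_cl S).kap⟩, algInd_pi⟩
        have h1 := main r z hzL hz _ inf_le_right
          (fun x hx => isAlgebraic_algebraMap (⟨x, hx.1⟩ : bigField ω₁ ω₂ t p)) 1 hpi
        unfold Q1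
        rw [if_neg hCM]
        exact h1.mono le_rfl (by omega)
  · -- `j` inside
    have hτS : ω₂ / ω₁ ∈ CD.cl S := (CD.closed_jiff (CD.closed_cl S) him).1 hj
    obtain ⟨a, b, t', p', ht, hp, hd, hk, hB⟩ := loc_all (CD.closed_cl S) him hτS t p
    have main : ∀ (r : ℕ) (z : Fin r → ℂ), (∀ i, IsAlgebraic (bigField ω₁ ω₂ t p) (z i)) →
          (∀ i, z i ∉ CD.cl (S ∪ z '' {j | j < i})) →
          ∀ R, R = max r (min 1 (modDim (CD.cl S) t + modDim2 (CD.cl S) ω₁ ω₂ p)) →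
          ∀ L : IntermediateField ℚ ℂ, L ≤ CD.cl S →
            (∀ x ∈ L, IsAlgebraic (bigField ω₁ ω₂ t p) x) → ∀ d, HasTrdeg L d →
            HasTrdeg (bigField ω₁ ω₂ t p)
              (d + (modDim (CD.cl S) t + modDim2 (CD.cl S) ω₁ ω₂ p) + R) := by
      intro r z hzL hz R hR L hLS hL d hLd
      have h1 := CD.all_fix (t := t) (p := p) CD.prf_Lin CD.prf_Lin2 CD.prf_Add CD.end_Mul him hS hj
        z (fun i => CD.mem_acl.2 (hzL i)) hz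
      have h2 : HasTrdeg (CD.acl (bigField ω₁ ω₂ t p) ⊓ CD.cl S) d :=
        hLd.mono (le_inf (fun x hx => CD.mem_acl.2 (hL x hx)) hLS) le_rfl
      have h3 : CD.RelTr (CD.acl (CD.acl (bigField ω₁ ω₂ t p))) (CD.cl S) _ :=
        h1.mono (CD.le_acl _) le_rfl le_rfl
      have h4 := CD.hasTrdeg_acl (h3.hasTrdeg h2)
      exact h4.mono le_rfl (by rw [hR]; omega)
    have hcm : IsCM 1 (ω₂ / ω₁) ↔ IsCM ω₁ ω₂ := by
      unfold IsCM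
      rw [div_one]
    have hLB : ∀ x ∈ bigField 1 (ω₂ / ω₁) t' p',
        x ∈ CD.cl S ∧ IsAlgebraic (bigField ω₁ ω₂ t p) x := fun x hx =>
      ⟨(hB hx).2, CD.mem_acl.1 (hB hx).1⟩
    have hdef : ∀ (r : ℕ) (z : Fin r → ℂ), (∀ i, IsAlgebraic (bigField ω₁ ω₂ t p) (z i)) →
          (∀ i, z i ∉ CD.cl (S ∪ z '' {j | j < i})) →
          ∀ R, R = max r (min 1 (modDim (CD.cl S) t + modDim2 (CD.cl S) ω₁ ω₂ p)) →
          ∀ N, HasTrdeg (bigField 1 (ω₂ / ω₁) t' p') N →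
            tDim t' + (if IsCM ω₁ ω₂ then 2 else 4) + kDim2 1 (ω₂ / ω₁) p' ≤ N + R →
            Q1 ω₁ ω₂ t p := by
      intro r z hzL hz R hR N hN hle
      have h1 := main r z hzL hz R hR _ (fun x hx => (hLB x hx).1) (fun x hx => (hLB x hx).2) N hN
      unfold Q1
      exact h1.mono le_rfl (by omega)
    refine ⟨a, b, t', p', ht, hp, hd, hk, hLB, fun hQ => ?_, fun r z hzL hz R hR =>
      ⟨main r z hzL hz R hR, hdef r z hzL hz R hR, fun m hm hle => ?_, fun halg hle => ?_⟩⟩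
    · unfold Q1 at hQ
      rw [if_congr hcm rfl rfl] at hQ
      exact hdef 0 (fun i => i.elim0) (fun i => i.elim0) (fun i => i.elim0) _ rfl _ hQ (by omega)
    · have hm' : HasTrdeg (bigField 1 (ω₂ / ω₁) (![] : Fin 0 → ℂ) (![] : Fin 0 → ℂ)) m := by
        rcases hm with hm | rfl
        · exact hm
        · exact GC.per_two_all ω₁ ω₂ him
      have h1 := main r z hzL hz R hR _
        (CD.closed_big (CD.closed_cl S) (one_mem _) hτS (fun l => l.elim0) (fun l => l.elim0))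
        (fun x hx => isAlgebraic_algebraMap (⟨x, big_base' him t p hx⟩ : bigField ω₁ ω₂ t p)) m hm'
      unfold Q1
      exact h1.mono le_rfl (by omega)
    · obtain ⟨m, t'', ht'', hdim, hexp⟩ :=
        CD.exists_part (t := t) (p := p) (CD.closed_cl S) him
      have h3 := tbound2 t'' (Or.inl fun l => halg _ (ht'' l).2 (ht'' l).1)
      have h1 := main r z hzL hz R hR _ (hexp.trans inf_le_right)
        (fun x hx => isAlgebraic_algebraMap (⟨x, (hexp hx).1⟩ : bigField ω₁ ω₂ t p)) _ h3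
      unfold Q1
      exact h1.mono le_rfl (by omega)

/-- **The final theorem.** -/
theorem main :
    ∃ cl : Set ℂ → IntermediateField ℚ ℂ,
      (∀ S : Set ℂ, S ⊆ cl S) ∧ (∀ S T : Set ℂ, S ⊆ cl T → cl S ≤ cl T) ∧
      (∀ S x, x ∈ cl S → ∃ T : Finset ℂ, (T : Set ℂ) ⊆ S ∧ x ∈ cl (T : Set ℂ)) ∧
      (∀ S, S.Countable → (cl S : Set ℂ).Countable) ∧
      (∀ S x, IsAlgebraic (cl S) x → x ∈ cl S) ∧
      (∀ S, ∀ ω₁ ∈ cl S, ∀ ω₂ ∈ cl S, ∀ (s n : ℕ) (t : Fin s → ℂ) (p : Fin n → ℂ),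
        (∀ l, t l ∈ cl S) → (∀ i, p i ∈ cl S) → bigField ω₁ ω₂ t p ≤ cl S) ∧
      (∀ S ω₁ ω₂, (ω₂ / ω₁).im ≠ 0 → (jInv ω₁ ω₂ ∈ cl S ↔ ω₂ / ω₁ ∈ cl S)) ∧
      ∀ S : Set ℂ, S.Countable →
        ((∀ τ ∈ cl S, τ.im ≠ 0 → ∀ (s n : ℕ) (t : Fin s → ℂ) (p : Fin n → ℂ), (∀ l, t l ∈ cl S) →
            (∀ i, p i ∈ cl S ∧ ∀ x y : ℤ, p i ≠ x + y * τ) → Q1 1 τ t p) →
          ∀ ω₁ ω₂ : ℂ, (ω₂ / ω₁).im ≠ 0 → ∀ (s n : ℕ) (t : Fin s → ℂ) (p : Fin n → ℂ),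
            Q1 ω₁ ω₂ t p) ∧
        ∀ ω₁ ω₂ : ℂ, (ω₂ / ω₁).im ≠ 0 → ∀ (s n : ℕ) (t : Fin s → ℂ) (p : Fin n → ℂ),
        (jInv ω₁ ω₂ ∉ cl S → ¬ IsCM ω₁ ω₂ ∧ ∃ (a : ℕ) (t' : Fin a → ℂ),
          (∀ l, t' l ∈ cl S ∧ t' l ∈ span ℚ (Set.range t)) ∧
          tDim t ≤ tDim t' + modDim (cl S) t ∧
          (Q1 1 Complex.I t' (![] : Fin 0 → ℂ) → Q1 ω₁ ω₂ t p) ∧
          ∀ (r : ℕ) (z : Fin r → ℂ), (∀ i, IsAlgebraic (bigField ω₁ ω₂ t p) (z i)) →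
          (∀ i, z i ∉ cl (S ∪ z '' {j | j < i})) →
          (∀ L : IntermediateField ℚ ℂ, L ≤ cl S →
            (∀ x ∈ L, IsAlgebraic (bigField ω₁ ω₂ t p) x) → ∀ d, HasTrdeg L d →
            HasTrdeg (bigField ω₁ ω₂ t p)
              (d + (modDim (cl S) t + 3 + kDim2 ω₁ ω₂ p) + max 1 r)) ∧
          (∀ N, HasTrdeg (expField t') N → tDim t' + 1 ≤ N + max 1 r → Q1 ω₁ ω₂ t p) ∧
          ((∀ x ∈ span ℚ (Set.range t), x ∈ cl S → IsAlgebraic ℚ x) ∨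
            tDim t ≤ modDim (cl S) t + max 1 r → Q1 ω₁ ω₂ t p)) ∧
        (jInv ω₁ ω₂ ∈ cl S → ∃ (a b : ℕ) (t' : Fin a → ℂ) (p' : Fin b → ℂ),
          (∀ l, t' l ∈ cl S ∧ t' l ∈ span ℚ (Set.range t)) ∧
          (∀ i, p' i ∈ cl S ∧ (∀ x y : ℤ, p' i ≠ x + y * (ω₂ / ω₁)) ∧
            ∃ g : Fin n → ℂ, (∀ j, InK ω₁ ω₂ (g j)) ∧ p' i * ω₁ = ∑ j, g j * p j) ∧
          tDim t ≤ tDim t' + modDim (cl S) t ∧
          kDim2 ω₁ ω₂ p ≤ kDim2 1 (ω₂ / ω₁) p' + modDim2 (cl S) ω₁ ω₂ p ∧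
          (∀ x ∈ bigField 1 (ω₂ / ω₁) t' p', x ∈ cl S ∧ IsAlgebraic (bigField ω₁ ω₂ t p) x) ∧
          (Q1 1 (ω₂ / ω₁) t' p' → Q1 ω₁ ω₂ t p) ∧
          ∀ (r : ℕ) (z : Fin r → ℂ), (∀ i, IsAlgebraic (bigField ω₁ ω₂ t p) (z i)) →
          (∀ i, z i ∉ cl (S ∪ z '' {j | j < i})) →
          ∀ R, R = max r (min 1 (modDim (cl S) t + modDim2 (cl S) ω₁ ω₂ p)) →
          (∀ L : IntermediateField ℚ ℂ, L ≤ cl S →
            (∀ x ∈ L, IsAlgebraic (bigField ω₁ ω₂ t p) x) → ∀ d, HasTrdeg L d →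
            HasTrdeg (bigField ω₁ ω₂ t p)
              (d + (modDim (cl S) t + modDim2 (cl S) ω₁ ω₂ p) + R)) ∧
          (∀ N, HasTrdeg (bigField 1 (ω₂ / ω₁) t' p') N →
            tDim t' + (open Classical in if IsCM ω₁ ω₂ then 2 else 4) +
              kDim2 1 (ω₂ / ω₁) p' ≤ N + R → Q1 ω₁ ω₂ t p) ∧
          (∀ m, HasTrdeg (bigField 1 (ω₂ / ω₁) (![] : Fin 0 → ℂ) (![] : Fin 0 → ℂ)) m ∨ m = 2 →
            tDim t + (open Classical in if IsCM ω₁ ω₂ then 2 else 4) + kDim2 ω₁ ω₂ p ≤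
              m + (modDim (cl S) t + modDim2 (cl S) ω₁ ω₂ p) + R → Q1 ω₁ ω₂ t p) ∧
          ((∀ x ∈ span ℚ (Set.range t), x ∈ cl S → IsAlgebraic ℚ x) →
            (open Classical in if IsCM ω₁ ω₂ then 2 else 4) + kDim2 ω₁ ω₂ p ≤
              modDim2 (cl S) ω₁ ω₂ p + R → Q1 ω₁ ω₂ t p)) := by
  obtain ⟨cl, h1, h2, h3, h4, h5, h6, h7, h⟩ := main0
  refine ⟨cl, h1, h2, h3, h4, h5, h6, h7, fun S hS => ⟨fun hQ ω₁ ω₂ him s n t p => ?_, h S hS⟩⟩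
  by_cases hj : jInv ω₁ ω₂ ∈ cl S
  · obtain ⟨a, b, t', p', ht, hp, -, -, -, hQ', -⟩ := (h S hS ω₁ ω₂ him s n t p).2 hj
    exact hQ' (hQ _ ((h7 S ω₁ ω₂ him).1 hj) him _ _ t' p' (fun l => (ht l).1)
      (fun i => ⟨(hp i).1, (hp i).2.1⟩))
  · obtain ⟨-, a, t', ht, -, hQ', -⟩ := (h S hS ω₁ ω₂ him s n t p).1 hj
    refine hQ' (hQ Complex.I (h5 S _ ?_) (by simp) _ _ t' _ (fun l => (ht l).1)
      (fun i => i.elim0))
    refine ⟨Polynomial.X ^ 2 + 1, ?_, by simp⟩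
    intro h0
    have := congrArg (fun q : Polynomial (cl S) => q.coeff 2) h0
    simp [Polynomial.coeff_one] at this

end Pool.Agent.Work.MP_8da9ea_nt.CR
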