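import Pool.Agent.Work.MP_8da9ea_nt.CR.Drop
import Pool.Agent.Work.MP_8da9ea_nt.EC.I_AlgL

/-!
# Reduction to a countable field: the local form
-/

set_option autoImplicit false

namespace Pool.Agent.Work.MP_8da9ea_nt.CR

open Pool.Agent.Work.MP_8da9ea_nt.EB Pool.Agent.Work.MP_327059_nt.GL Pool.Agent.Work.MP_8da9ea_nt.S
  Pool.Agent.Work.MP_8da9ea_nt.EC Submodule

/-- independence modulo `2πi` -/
theorem tDim_ge {a : ℕ} (t : Fin a → ℂ)
    (h : ∀ (c : Fin a → ℚ) (q : ℚ), ∑ i, (c i : ℂ) * t i = q * kap → c = 0) : a ≤ tDim t := by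
  classical
  unfold tDim
  set V := span ℚ (Set.range t ∪ {2 * (Real.pi : ℂ) * Complex.I}) with hV
  have hfd : FiniteDimensional ℚ V :=
    FiniteDimensional.span_of_finite ℚ ((Set.finite_range _).union (Set.finite_singleton _))
  let f : Option (Fin a) → V := fun o => o.elim ⟨2 * (Real.pi : ℂ) * Complex.I,
    subset_span (Or.inr rfl)⟩ (fun i => ⟨t i, subset_span (Or.inl ⟨i, rfl⟩)⟩)
  have hf : LinearIndependent ℚ f := by
    apply LinearIndependent.of_comp V.subtype
    rw [Fintype.linearIndependent_iff]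
    intro g hg
    rw [Fintype.sum_option] at hg
    have h1 : ∑ i, ((g (some i) : ℚ) : ℂ) * t i = ((-g none : ℚ) : ℂ) * kap := by
      have h2 : (g none : ℂ) * (2 * (Real.pi : ℂ) * Complex.I) +
          ∑ i, ((g (some i) : ℚ) : ℂ) * t i = 0 := by
        rw [← hg]
        simp only [f, Function.comp_apply, Submodule.subtype_apply, Option.elim_none,
          Option.elim_some, Rat.smul_def]
      push_cast
      unfold kap
      linear_combination h2
    have h3 := h _ _ h1
    rintro (_ | i)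
    · have h4 : ∑ i, ((g (some i) : ℚ) : ℂ) * t i = 0 := by
        refine Finset.sum_eq_zero fun i _ => ?_
        have := congrFun h3 i
        simp only [Pi.zero_apply] at this
        rw [this, Rat.cast_zero, zero_mul]
      rw [h4] at h1
      have h5 : ((-g none : ℚ) : ℂ) = 0 :=
        (mul_eq_zero.1 h1.symm).resolve_right Complex.two_pi_I_ne_zero
      have h6 : -g none = 0 := by exact_mod_cast h5
      linarith
    · exact congrFun h3 i
  have h1 := hf.fintype_card_le_finrank
  rw [Fintype.card_option, Fintype.card_fin] at h1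
  omega

theorem isE_of_cm {τ : ℂ} (h : IsCM 1 τ) (hτ : 0 < τ.im) (x y : ℚ) : IsE τ ((x : ℂ) + y * τ) := by
  obtain ⟨a, b, c, ha, h⟩ := h
  rw [div_one] at h
  have hx : (x : ℂ) = x.num / x.den := by exact_mod_cast (Rat.num_div_den x).symm
  have hy : (y : ℂ) = y.num / y.den := by exact_mod_cast (Rat.num_div_den y).symm
  have hxd : (x.den : ℂ) ≠ 0 := by exact_mod_cast x.den_ne_zero
  have hyd : (y.den : ℂ) ≠ 0 := by exact_mod_cast y.den_ne_zero
  refine ⟨a * (x.den * y.den), ?_, mem_Lam.2 ⟨a * (x.num * y.den), a * (y.num * x.den), ?_⟩,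
    mem_Lam.2 ⟨-(c * (y.num * x.den)), a * (x.num * y.den) - b * (y.num * x.den), ?_⟩⟩
  · have h1 : (x.den : ℤ) ≠ 0 := by exact_mod_cast x.den_ne_zero
    have h2 : (y.den : ℤ) ≠ 0 := by exact_mod_cast y.den_ne_zero
    exact mul_ne_zero ha (mul_ne_zero h1 h2)
  · rw [hx, hy]
    push_cast
    field_simp
  · rw [hx, hy]
    push_cast
    field_simp
    linear_combination ((y.num : ℂ) * x.den) * h

theorem rat_tau_zero {τ : ℂ} (hτ : 0 < τ.im) {x y : ℚ} (h : (x : ℂ) + y * τ = 0) :
    x = 0 ∧ y = 0 := by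
  have h1 := congrArg Complex.im h
  simp only [Complex.add_im, Complex.ratCast_im, Complex.mul_im, Complex.ratCast_re, zero_mul,
    add_zero, zero_add, Complex.zero_im] at h1
  have hy : (y : ℝ) = 0 := (mul_eq_zero.1 h1).resolve_right hτ.ne'
  have hy' : y = 0 := by exact_mod_cast hy
  subst hy'
  simp at h
  exact ⟨by exact_mod_cast h, rfl⟩

/-- independence modulo `ℚ + ℚτ` over `k` -/
theorem kDim2_ge {τ : ℂ} (hτ : 0 < τ.im) {b : ℕ} (p : Fin b → ℂ)
    (h : ∀ (c : Fin b → ℂ) (q q' : ℚ), (∀ i, IsE τ (c i)) →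
      ∑ i, c i * p i = q + q' * τ → c = 0) : 2 * b ≤ kDim2 1 τ p := by
  classical
  unfold kDim2
  split_ifs with hCM
  · set V := span ℚ (Set.range p ∪ Set.range (fun i => τ / 1 * p i) ∪ {1, τ}) with hV
    have hfd : FiniteDimensional ℚ V := by
      refine FiniteDimensional.span_of_finite ℚ (((Set.finite_range _).union
        (Set.finite_range _)).union ?_)
      exact (Set.finite_singleton _).insert _
    let f : (Fin b ⊕ Fin b) ⊕ Fin 2 → V := Sum.elim (Sum.elim
      (fun i => ⟨p i, subset_span (Or.inl (Or.inl ⟨i, rfl⟩))⟩)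
      (fun i => ⟨τ / 1 * p i, subset_span (Or.inl (Or.inr ⟨i, rfl⟩))⟩))
      ![⟨1, subset_span (Or.inr (Or.inl rfl))⟩, ⟨τ, subset_span (Or.inr (Or.inr rfl))⟩]
    have hf : LinearIndependent ℚ f := by
      apply LinearIndependent.of_comp V.subtype
      rw [Fintype.linearIndependent_iff]
      intro g hg
      rw [Fintype.sum_sum_type, Fintype.sum_sum_type, Fin.sum_univ_two] at hg
      have h2 : ∑ i, ((g (Sum.inl (Sum.inl i)) : ℂ) + g (Sum.inl (Sum.inr i)) * τ) * p i =
          ((-g (Sum.inr 0) : ℚ) : ℂ) + ((-g (Sum.inr 1) : ℚ) : ℂ) * τ := by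
        have h3 : (∑ i, (g (Sum.inl (Sum.inl i)) : ℂ) * p i +
            ∑ i, (g (Sum.inl (Sum.inr i)) : ℂ) * (τ * p i)) +
            ((g (Sum.inr 0) : ℂ) * 1 + (g (Sum.inr 1) : ℂ) * τ) = 0 := by
          rw [← hg]
          simp only [f, Function.comp_apply, Submodule.subtype_apply, Sum.elim_inl, Sum.elim_inr,
            Rat.smul_def, div_one, Matrix.cons_val_zero, Matrix.cons_val_one]
        have h4 : ∑ i, ((g (Sum.inl (Sum.inl i)) : ℂ) + g (Sum.inl (Sum.inr i)) * τ) * p i =
            ∑ i, (g (Sum.inl (Sum.inl i)) : ℂ) * p i +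
            ∑ i, (g (Sum.inl (Sum.inr i)) : ℂ) * (τ * p i) := by
          rw [← Finset.sum_add_distrib]
          exact Finset.sum_congr rfl fun i _ => by ring
        rw [h4]
        push_cast
        linear_combination h3
      have h5 := h _ _ _ (fun i => isE_of_cm hCM hτ _ _) h2
      have h6 : ∀ i, g (Sum.inl (Sum.inl i)) = 0 ∧ g (Sum.inl (Sum.inr i)) = 0 := fun i =>
        rat_tau_zero hτ (congrFun h5 i)
      have h7 : ((-g (Sum.inr 0) : ℚ) : ℂ) + ((-g (Sum.inr 1) : ℚ) : ℂ) * τ = 0 := by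
        rw [← h2]
        refine Finset.sum_eq_zero fun i _ => ?_
        rw [(h6 i).1, (h6 i).2]
        simp
      obtain ⟨h8, h9⟩ := rat_tau_zero hτ h7
      rintro ((i | i) | i)
      · exact (h6 i).1
      · exact (h6 i).2
      · fin_cases i
        · simpa using h8
        · simpa using h9
    have h1 := hf.fintype_card_le_finrank
    rw [Fintype.card_sum, Fintype.card_sum, Fintype.card_fin, Fintype.card_fin] at h1
    omega
  · set V := span ℚ (Set.range p ∪ {1, τ}) with hV
    have hfd : FiniteDimensional ℚ V := by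
      refine FiniteDimensional.span_of_finite ℚ ((Set.finite_range _).union ?_)
      exact (Set.finite_singleton _).insert _
    let f : Fin b ⊕ Fin 2 → V := Sum.elim
      (fun i => ⟨p i, subset_span (Or.inl ⟨i, rfl⟩)⟩)
      ![⟨1, subset_span (Or.inr (Or.inl rfl))⟩, ⟨τ, subset_span (Or.inr (Or.inr rfl))⟩]
    have hf : LinearIndependent ℚ f := by
      apply LinearIndependent.of_comp V.subtype
      rw [Fintype.linearIndependent_iff]
      intro g hg
      rw [Fintype.sum_sum_type, Fin.sum_univ_two] at hg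
      have h2 : ∑ i, (g (Sum.inl i) : ℂ) * p i =
          ((-g (Sum.inr 0) : ℚ) : ℂ) + ((-g (Sum.inr 1) : ℚ) : ℂ) * τ := by
        have h3 : (∑ i, (g (Sum.inl i) : ℂ) * p i) +
            ((g (Sum.inr 0) : ℂ) * 1 + (g (Sum.inr 1) : ℂ) * τ) = 0 := by
          rw [← hg]
          simp only [f, Function.comp_apply, Submodule.subtype_apply, Sum.elim_inl, Sum.elim_inr,
            Rat.smul_def, Matrix.cons_val_zero, Matrix.cons_val_one]
        push_cast
        linear_combination h3
      have h5 := h _ _ _ (fun i => I_AlgL.IsE_rat τ _) h2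
      have h6 : ∀ i, g (Sum.inl i) = 0 := fun i => by
        have := congrFun h5 i
        simp only [Pi.zero_apply] at this
        exact_mod_cast this
      have h7 : ((-g (Sum.inr 0) : ℚ) : ℂ) + ((-g (Sum.inr 1) : ℚ) : ℂ) * τ = 0 := by
        rw [← h2]
        refine Finset.sum_eq_zero fun i _ => ?_
        rw [h6 i]
        simp
      obtain ⟨h8, h9⟩ := rat_tau_zero hτ h7
      rintro (i | i)
      · exact h6 i
      · fin_cases i
        · simpa using h8
        · simpa using h9
    have h1 := hf.fintype_card_le_finrank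
    rw [Fintype.card_sum, Fintype.card_fin, Fintype.card_fin] at h1
    omega

end Pool.Agent.Work.MP_8da9ea_nt.CR
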