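import Pool.Agent.Work.MP_8da9ea_nt.CR.Loc
import Pool.Agent.Work.MP_8da9ea_nt.EC.I_TPart
import Pool.Agent.Work.MP_8da9ea_nt.EC.I_PPart
import Pool.Agent.Work.MP_8da9ea_nt.EC.Fin
import Pool.Agent.Work.MP_8da9ea_nt.EC.Fin2

/-!
# Reduction to a countable field
-/

set_option autoImplicit false

namespace Pool.Agent.Work.MP_8da9ea_nt.CR

open Pool.Agent.Work.MP_8da9ea_nt.EB Pool.Agent.Work.MP_327059_nt.GL Pool.Agent.Work.MP_8da9ea_nt.S
  Pool.Agent.Work.MP_8da9ea_nt.EC Submodule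

/-- **Local form**, lattices `ℤ ω₁ + ℤ ω₁ τ`. -/
theorem loc_main {F : IntermediateField ℚ ℂ} (hF : CD.Closed F) {ω₁ τ : ℂ} (h1 : ω₁ ≠ 0)
    (hτ : 0 < τ.im) (hτF : τ ∈ F) {s n : ℕ} (t : Fin s → ℂ) (p : Fin n → ℂ) :
    ∃ (a b : ℕ) (t' : Fin a → ℂ) (p' : Fin b → ℂ),
      (∀ l, t' l ∈ F ∧ t' l ∈ span ℚ (Set.range t)) ∧
      (∀ i, p' i ∈ F ∧ p' i ∉ Lam τ ∧
        ∃ g : Fin n → ℂ, (∀ j, IsE τ (g j)) ∧ p' i = ∑ j, g j * (p j / ω₁)) ∧
      tDim t ≤ tDim t' + modDim F t ∧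
      kDim2 ω₁ (ω₁ * τ) p ≤ kDim2 1 τ p' + modDim2 F ω₁ (ω₁ * τ) p ∧
      bigField 1 τ t' p' ≤ CD.acl (bigField ω₁ (ω₁ * τ) t p) ⊓ F := by
  classical
  have hdiv : ω₁ * τ / ω₁ = τ := mul_div_cancel_left₀ _ h1
  obtain ⟨a, M, hMF, hMind, hMdim⟩ := TPart_pf F hF.kap s t
  obtain ⟨b, g, hg, hgF, hgind, hgdim⟩ := PPart_pf F ω₁ (ω₁ * τ)
    (by rw [hdiv]; exact hτ.ne') (by rw [hdiv]; exact hτF) n p
  rw [hdiv] at hg hgind
  have hnL : ∀ i, ∑ j, g i j * (p j / ω₁) ∉ Lam τ := by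
    intro i hi
    obtain ⟨x, y, hxy⟩ := mem_Lam.1 hi
    have h2 := hgind (Pi.single i 1) x y (fun k => ?_) ?_
    · have h3 := congrFun h2 i
      simp at h3
    · rcases eq_or_ne k i with rfl | hk
      · rw [Pi.single_eq_same]
        simpa using I_AlgL.IsE_rat τ 1
      · rw [Pi.single_eq_of_ne hk]
        simpa using I_AlgL.IsE_rat τ 0
    · rw [Finset.sum_eq_single i]
      · rw [Pi.single_eq_same, one_mul, hxy]
        push_cast
        rfl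
      · intro k _ hk
        rw [Pi.single_eq_of_ne hk, zero_mul]
      · intro h
        exact absurd (Finset.mem_univ i) h
  have hB := CD.base_big t p h1 hτ
  refine ⟨a, b, fun i => ∑ l, (M i l : ℂ) * t l, fun i => ∑ j, g i j * (p j / ω₁),
    fun i => ⟨hMF i, ?_⟩, fun i => ⟨hgF i, hnL i, g i, fun j => ?_, rfl⟩, ?_, ?_, ?_⟩
  · refine sum_mem fun l _ => ?_
    have h2 : (M i l : ℂ) * t l = (M i l : ℚ) • t l := by
      rw [Rat.smul_def]
      push_cast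
      rfl
    rw [h2]
    exact smul_mem _ _ (subset_span ⟨l, rfl⟩)
  · exact ⟨1, one_ne_zero, by simpa using (hg i j).1, by simpa using (hg i j).2⟩
  · have := tDim_ge _ hMind
    omega
  · have := kDim2_ge hτ _ (fun c q q' hc h => hgind c q q' hc h)
    omega
  · refine le_inf ?_ (CD.closed_big hF (one_mem _) hτF hMF hgF)
    have hgood : ∀ i, wp 1 τ (∑ j, g i j * (p j / ω₁)) ∈ CD.acl (bigField ω₁ (ω₁ * τ) t p) ∧
        zt 1 τ (∑ j, g i j * (p j / ω₁)) ∈ CD.acl (bigField ω₁ (ω₁ * τ) t p) := fun i =>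
      (CD.good_comb t p CD.prf_Add CD.end_Mul h1 hτ (g i) (fun j => hg i j)).resolve_left (hnL i)
    refine big_le 1 τ _ _ (fun l => CD.tcomb_mem t p (M l)) (fun l => CD.texp_mem t p (M l))
      hB.g2 hB.g3 (fun i => CD.comb_mem t p h1 hτ (g i) (fun j => hg i j))
      (fun i => (hgood i).1) (fun i => (hgood i).2) (one_mem _) hB.tau hB.et ?_
    rw [zt_half_tau hτ]
    exact sub_mem (mul_mem hB.tau hB.et) hB.kap

/-- **Local form**, all lattices with `ω₂ / ω₁` in the field. -/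
theorem loc_all {F : IntermediateField ℚ ℂ} (hF : CD.Closed F) {ω₁ ω₂ : ℂ}
    (him : (ω₂ / ω₁).im ≠ 0) (hτF : ω₂ / ω₁ ∈ F) {s n : ℕ} (t : Fin s → ℂ) (p : Fin n → ℂ) :
    ∃ (a b : ℕ) (t' : Fin a → ℂ) (p' : Fin b → ℂ),
      (∀ l, t' l ∈ F ∧ t' l ∈ span ℚ (Set.range t)) ∧
      (∀ i, p' i ∈ F ∧ (∀ x y : ℤ, p' i ≠ x + y * (ω₂ / ω₁)) ∧
        ∃ g : Fin n → ℂ, (∀ j, InK ω₁ ω₂ (g j)) ∧ p' i * ω₁ = ∑ j, g j * p j) ∧
      tDim t ≤ tDim t' + modDim F t ∧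
      kDim2 ω₁ ω₂ p ≤ kDim2 1 (ω₂ / ω₁) p' + modDim2 F ω₁ ω₂ p ∧
      bigField 1 (ω₂ / ω₁) t' p' ≤ CD.acl (bigField ω₁ ω₂ t p) ⊓ F := by
  have h1 : ω₁ ≠ 0 := by
    rintro rfl
    simp at him
  have conv : ∀ (g : Fin n → ℂ) (x : ℂ), x = ∑ j, g j * (p j / ω₁) → x * ω₁ = ∑ j, g j * p j := by
    intro g x hx
    rw [hx, Finset.sum_mul]
    refine Finset.sum_congr rfl fun j _ => ?_
    field_simp
  rcases lt_or_gt_of_ne him with hlt | hgt
  · have h2 : -ω₂ = ω₁ * (-(ω₂ / ω₁)) := by field_simp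
    obtain ⟨a, b, t', p', ht, hp, hd, hk, hB⟩ := loc_main hF h1 (τ := -(ω₂ / ω₁))
      (by simpa using hlt) (neg_mem hτF) t p
    rw [← h2, bigField_neg, bigField_neg] at hB
    rw [← h2, I_AlgL.kDim2_neg, I_AlgL.kDim2_neg, modDim2_neg] at hk
    refine ⟨a, b, t', p', ht, fun i => ⟨(hp i).1, fun x y hxy => (hp i).2.1
      (mem_Lam.2 ⟨x, -y, by rw [hxy]; push_cast; ring⟩), ?_⟩, hd, hk, hB⟩
    obtain ⟨g, hg, hgs⟩ := (hp i).2.2
    exact ⟨g, fun j => (inK_iff h1 _).2 ((I_AlgL.IsE_neg _ _).1 (hg j)), conv g _ hgs⟩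
  · have hω : ω₂ = ω₁ * (ω₂ / ω₁) := by field_simp
    obtain ⟨a, b, t', p', ht, hp, hd, hk, hB⟩ := loc_main hF h1 (τ := ω₂ / ω₁) hgt hτF t p
    rw [← hω] at hB hk
    refine ⟨a, b, t', p', ht, fun i => ⟨(hp i).1, fun x y hxy => (hp i).2.1
      (mem_Lam.2 ⟨x, y, hxy⟩), ?_⟩, hd, hk, hB⟩
    obtain ⟨g, hg, hgs⟩ := (hp i).2.2
    exact ⟨g, fun j => (inK_iff h1 _).2 (hg j), conv g _ hgs⟩

/-- the invariant `g₃` of the square lattice -/
theorem gk6_I : gk 6 1 Complex.I = 0 := by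
  have h1 : gk 6 (Complex.I * 1) (Complex.I * Complex.I) = (Complex.I ^ 6)⁻¹ * gk 6 1 Complex.I :=
    gk_smul 6 Complex.I 1 Complex.I
  have h2 : gk 6 (Complex.I * 1) (Complex.I * Complex.I) = gk 6 1 Complex.I := by
    unfold gk
    rw [← eS.tsum_eq (fun q : ℤ × ℤ => 1 / lp 1 Complex.I q ^ 6)]
    refine tsum_congr fun q => ?_
    have h3 : lp (Complex.I * 1) (Complex.I * Complex.I) q = lp 1 Complex.I (eS q) := by
      simp only [lp, eS, Equiv.coe_fn_mk, Complex.I_mul_I]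
      push_cast
      ring
    rw [h3]
  have h4 : (Complex.I ^ 6 : ℂ) = -1 := by
    rw [show (6 : ℕ) = 4 + 2 by norm_num, pow_add, Complex.I_pow_four, Complex.I_sq, one_mul]
  rw [h2, h4] at h1
  have h5 : gk 6 1 Complex.I + gk 6 1 Complex.I = 0 := by
    have : ((-1 : ℂ))⁻¹ = -1 := by norm_num
    rw [this] at h1
    linear_combination h1
  linear_combination h5 / 2

/-- Schanuel's inequality from the inequality of the problem for the square lattice -/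
theorem sch_of_Q1 {m : ℕ} (t : Fin m → ℂ) (h : Q1 1 Complex.I t (![] : Fin 0 → ℂ)) :
    HasTrdeg (expField t) (tDim t) := by
  classical
  have hCM : IsCM 1 Complex.I := ⟨1, 0, 1, one_ne_zero, by simp⟩
  unfold Q1 at h
  rw [if_pos hCM] at h
  have hτ : 0 < Complex.I.im := by simp
  refine drop_two (expField t) (bigField 1 Complex.I t (![] : Fin 0 → ℂ)) (gk 4 1 Complex.I)
    (et Complex.I) ?_ (h.mono le_rfl (Nat.le_add_right _ _))
  set E := IntermediateField.adjoin ℚ ((expField t : Set ℂ) ∪ {gk 4 1 Complex.I, et Complex.I})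
    with hE
  have hsub : ∀ x ∈ expField t, x ∈ CD.acl E := fun x hx =>
    CD.le_acl E (IntermediateField.subset_adjoin _ _ (Or.inl hx))
  have h4 : gk 4 1 Complex.I ∈ CD.acl E :=
    CD.le_acl E (IntermediateField.subset_adjoin _ _ (Or.inr (Or.inl rfl)))
  have het : et Complex.I ∈ CD.acl E :=
    CD.le_acl E (IntermediateField.subset_adjoin _ _ (Or.inr (Or.inr rfl)))
  have hI : Complex.I ∈ CD.acl E := by
    refine CD.mem_acl.2 ⟨Polynomial.X ^ 2 + 1, ?_, by simp⟩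
    intro h0
    have := congrArg (fun q : Polynomial E => q.coeff 2) h0
    simp [Polynomial.coeff_one] at this
  have hpi : kap ∈ CD.acl E := hsub _ (IntermediateField.subset_adjoin _ _ (Or.inl (Or.inl rfl)))
  have hle : bigField 1 Complex.I t (![] : Fin 0 → ℂ) ≤ CD.acl E := by
    refine big_le 1 Complex.I _ _
      (fun l => hsub _ (IntermediateField.subset_adjoin _ _ (Or.inl (Or.inr ⟨l, rfl⟩))))
      (fun l => hsub _ (IntermediateField.subset_adjoin _ _ (Or.inr ⟨l, rfl⟩)))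
      (mul_mem (ofNat_mem _ 60) h4) ?_ (fun l => l.elim0) (fun l => l.elim0) (fun l => l.elim0)
      (one_mem _) hI het ?_
    · rw [gk6_I, mul_zero]
      exact zero_mem _
    · rw [zt_half_tau hτ]
      exact sub_mem (mul_mem hI het) hpi
  exact fun b hb => CD.mem_acl.1 (hle hb)

end Pool.Agent.Work.MP_8da9ea_nt.CR
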